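import Pool.Agent.Burnside6.Adian

namespace Pool.Agent.Results.MP_53e0d4_al.TopologizableQuotient

/-- The discrete topology is the only Hausdorff group topology. -/
def NonTopologizable (G : Type) [Group G] : Prop :=
  ∀ [TopologicalSpace G] [IsTopologicalGroup G] [T2Space G], DiscreteTopology G

/-- There is a countable group all of whose subgroups are non-topologizable and which has a
quotient that carries a non-discrete Hausdorff group topology. -/
theorem result : ∃ (G : Type) (_ : Group G), Countable G ∧
    (∀ H : Subgroup G, NonTopologizable H) ∧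
    ∃ (N : Subgroup G) (_ : N.Normal) (_ : TopologicalSpace (G ⧸ N)),
      IsTopologicalGroup (G ⧸ N) ∧ T2Space (G ⧸ N) ∧ ¬ DiscreteTopology (G ⧸ N) := by
  have : Fact (1 < Burnside6.n₁) := ⟨by have := Burnside6.n₁_spec.2; omega⟩
  obtain ⟨t, h1, h2, h3⟩ := Burnside6.exists_top Burnside6.β₁ Burnside6.β₁_single
  exact ⟨_, inferInstance, QuotientGroup.mk_surjective.countable,
    fun H t h h' => ⟨Burnside6.adian_nontop H t h h'⟩, _, inferInstance, t, h1, h2,
    fun h => h3 h.eq_bot⟩

end Pool.Agent.Results.MP_53e0d4_al.TopologizableQuotient
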